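import Pool.Agent.Zk55.RF.Base

set_option autoImplicit false

/-!
The values of one-sided limits propagate along strips of lines (module H).
-/

namespace Pool.Agent.Zk86.RF

open Complex Set MeasureTheory Filter Topology Pool.Agent.W780.PG Pool.Agent.W780.BB
  Pool.Agent.TH578.BE Pool.Agent.K3h17.BK Pool.Agent.Zk55.CF Pool.Agent.Zk55.RF

open scoped Real ComplexConjugate ENNReal

variable {n : ℕ} {p : Fin (n + 3) → ℂ} {χ : Fin (n + 3) → ℂ} {f : ℂ × ℝ → ℂ}

theorem fw_fst' (w : List (Fin (n + 3))) : ∃ c : ℝ, ∀ x : ℝ × ℝ,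
    (fw p w x).1 = (-1) ^ w.length * x.1 + c := by
  induction w with
  | nil => exact ⟨0, fun x => by simp [fw]⟩
  | cons i w ih =>
    obtain ⟨c, h⟩ := ih
    refine ⟨(-1) ^ w.length * (2 * tau p i) + c, fun x => ?_⟩
    rw [fw, h, List.length_cons, pow_succ]
    unfold fl
    simp only []
    ring

theorem sg_one (w : List (Fin (n + 3))) : sg (fun _ : Fin (n + 3) => (1 : ℂ)) w = 1 := by
  induction w with
  | nil => rfl
  | cons i w ih => simp [sg, ih]

theorem rf_mp (i : Fin (n + 3)) :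
    MeasurePreserving (rf p i) (volume : Measure ℂ) (volume : Measure ℂ) := by
  have h1 := measurePreserving_sub_right (volume : Measure ℂ) (p i)
  have h2 := Complex.conjLIE.measurePreserving
  have h3 := (rotation (Circle.exp (2 * tau p i))).measurePreserving
  have h4 := measurePreserving_add_left (volume : Measure ℂ) (p i)
  have h5 := h4.comp (h3.comp (h2.comp h1))
  convert h5 using 1
  ext z
  simp only [Function.comp_apply]
  rw [rotation_apply, Circle.coe_exp, Complex.conjLIE_apply]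
  rfl

theorem uf_mp (w : List (Fin (n + 3))) :
    MeasurePreserving (uf p w) (volume : Measure ℂ) (volume : Measure ℂ) := by
  induction w with
  | nil => exact MeasurePreserving.id _
  | cons i w ih => exact (rf_mp i).comp ih

theorem cont_rf (i : Fin (n + 3)) : Continuous (rf p i) := by
  unfold rf
  have := continuous_conj
  fun_prop

theorem cont_uf (w : List (Fin (n + 3))) : Continuous (uf p w) := by
  induction w with
  | nil => exact continuous_id
  | cons i w ih => exact (cont_rf i).comp ih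

/-- averages as lower integrals -/
theorem avg_lint {u : ℝ → ℝ} (hm : Measurable u) (h0 : ∀ η, 0 ≤ u η) {C : ℝ} (hC : ∀ η, u η ≤ C)
    (h : Tendsto (fun δ : ℝ => (1 / δ) * ∫ η in (0 : ℝ)..δ, u η) (𝓝[>] 0) (𝓝 0)) :
    Tendsto (fun δ : ℝ => ENNReal.ofReal (1 / δ) * ∫⁻ η in Ioc 0 δ, ENNReal.ofReal (u η))
      (𝓝[>] 0) (𝓝 0) := by
  have h1 : Tendsto (fun δ : ℝ => ENNReal.ofReal ((1 / δ) * ∫ η in (0 : ℝ)..δ, u η)) (𝓝[>] 0)
      (𝓝 0) := by
    have := (ENNReal.continuous_ofReal.tendsto 0).comp h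
    rw [ENNReal.ofReal_zero] at this
    exact this
  refine h1.congr' ?_
  filter_upwards [self_mem_nhdsWithin] with δ hδ
  have hδ' : (0 : ℝ) < δ := hδ
  rw [ENNReal.ofReal_mul (by positivity), intervalIntegral.integral_of_le hδ'.le,
    ofReal_integral_eq_lintegral_ofReal]
  · refine Integrable.of_bound hm.aestronglyMeasurable C (Filter.Eventually.of_forall fun η => ?_)
    rw [Real.norm_of_nonneg (h0 η)]
    exact hC η
  · exact Filter.Eventually.of_forall h0

theorem pers' (hp : IsConvexPolygon p) (hf : Measurable f) (hb : ∀ x, ‖f x‖ ≤ 1)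
    (hE : IsEigenfunction p 0 (fun _ => 1) f) {ε : ℝ} {G G' : ℂ → ℝ → ℂ}
    (hG : Sided p f ε G) {W : List (Fin (n + 3))} (hG' : Sided p f ((-1) ^ W.length * ε) G')
    {θ0 s0 ρ : ℝ} {z0 a : ℂ} (hρ : 0 < ρ) (hz0 : Metric.ball z0 ρ ⊆ reg p)
    (h0 : ph (θ0, s0) z0 = 0) (hRW : ∀ σ, |σ - s0| < ρ → RW p W (θ0, σ))
    (ha : ∀ᵐ z : ℂ, z ∈ Metric.ball z0 ρ → G z θ0 = a) :
    ∀ᵐ z : ℂ, z ∈ reg p → |ph (fw p W (θ0, s0)) z| < ρ → G' z (fw p W (θ0, s0)).1 = a := by
  obtain ⟨c, hc⟩ := fw_fst' (p := p) W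
  set e : ℝ := (-1) ^ W.length with he
  have hθ1 : (fw p W (θ0, s0)).1 = e * θ0 + c := hc _
  -- the measurable integrands
  have hFm : ∀ (θ ε' : ℝ), Measurable fun x : ℂ × ℝ => ‖f (x.1, θ + ε' * x.2) - a‖ₑ := by
    intro θ ε'
    refine Measurable.enorm ((hf.comp (measurable_fst.prodMk ?_)).sub measurable_const)
    exact measurable_const.add (measurable_const.mul measurable_snd)
  have hbd : ∀ x, ‖f x - a‖ₑ ≤ ENNReal.ofReal (1 + ‖a‖) := by
    intro x
    rw [← ofReal_norm]
    refine ENNReal.ofReal_le_ofReal ((norm_sub_le _ _).trans ?_)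
    linarith [hb x]
  -- one-sided averages
  have hav : ∀ (g : ℂ → ℝ → ℂ) (ε' : ℝ), Sided p f ε' g → ∀ᵐ z : ℂ, z ∈ reg p → ∀ θ : ℝ,
      Tendsto (fun δ : ℝ => ENNReal.ofReal (1 / δ) * ∫⁻ η in Ioc 0 δ,
        ‖f (z, θ + ε' * η) - g z θ‖ₑ) (𝓝[>] 0) (𝓝 0) := by
    intro g ε' hg
    filter_upwards [hg] with z hz hzr θ
    have h1 := avg_lint (u := fun η => ‖f (z, θ + ε' * η) - g z θ‖) (C := 1 + ‖g z θ‖) ?_
      (fun η => norm_nonneg _) (fun η => (norm_sub_le _ _).trans (by linarith [hb (z, θ + ε' * η)]))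
      (hz hzr θ)
    · simpa only [ofReal_norm] using h1
    · refine Measurable.norm ((hf.comp (measurable_const.prodMk ?_)).sub measurable_const)
      exact measurable_const.add (measurable_const.mul measurable_id)
  have hA : Tendsto (fun m : ℕ => ∫⁻ z in Metric.ball z0 ρ,
      ENNReal.ofReal (1 / (1 / ((m : ℝ) + 1))) * ∫⁻ η in Ioc 0 (1 / ((m : ℝ) + 1)),
        ‖f (z, θ0 + ε * η) - a‖ₑ) atTop (𝓝 0) := by
    have h1 : (0 : ℝ≥0∞) = ∫⁻ z in Metric.ball z0 ρ, 0 := by simp
    rw [h1]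
    refine tendsto_lintegral_of_dominated_convergence (fun _ => ENNReal.ofReal (1 + ‖a‖)) ?_ ?_ ?_ ?_
    · intro m
      refine Measurable.const_mul ?_ _
      exact (hFm θ0 ε).lintegral_prod_right'
    · intro m
      refine Filter.Eventually.of_forall fun z => ?_
      have hm : (0 : ℝ) < 1 / ((m : ℝ) + 1) := by positivity
      calc ENNReal.ofReal (1 / (1 / ((m : ℝ) + 1))) * ∫⁻ η in Ioc 0 (1 / ((m : ℝ) + 1)),
            ‖f (z, θ0 + ε * η) - a‖ₑ
          ≤ ENNReal.ofReal (1 / (1 / ((m : ℝ) + 1))) * ∫⁻ η in Ioc 0 (1 / ((m : ℝ) + 1)),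
            ENNReal.ofReal (1 + ‖a‖) := by
            gcongr
            exact hbd _
        _ = ENNReal.ofReal (1 + ‖a‖) := by
            rw [lintegral_const, Measure.restrict_apply MeasurableSet.univ, univ_inter,
              Real.volume_Ioc, sub_zero, ← mul_assoc, mul_comm (ENNReal.ofReal _), mul_assoc,
              ← ENNReal.ofReal_mul (by positivity), one_div_mul_cancel hm.ne', ENNReal.ofReal_one,
              mul_one]
        _ ≤ _ := le_rfl
    · rw [lintegral_const]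
      exact ENNReal.mul_ne_top ENNReal.ofReal_ne_top (by
        rw [Measure.restrict_apply MeasurableSet.univ, univ_inter]
        exact measure_ball_lt_top.ne)
    · rw [ae_restrict_iff' measurableSet_ball]
      filter_upwards [hav G ε hG, ha] with z hz hza hzb
      have h2 := hz (hz0 hzb) θ0
      rw [hza hzb] at h2
      exact h2.comp seq_lim
  -- the local statement
  have key : ∀ z1 ∈ reg p, |ph (fw p W (θ0, s0)) z1| < ρ → ∃ r : ℝ, 0 < r ∧
      ∀ᵐ z : ℂ, z ∈ Metric.ball z1 r → G' z (fw p W (θ0, s0)).1 = a := by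
    intro z1 hz1 hphz
    set σ : ℝ := (conj (dir θ0) * uf p W z1).im with hσ
    have hee : |e| = 1 := by
      rw [he, abs_pow, abs_neg, abs_one, one_pow]
    have hσs : |σ - s0| < ρ := by
      rw [ph_fw (Pool.Agent.W347.BB.rf_rf p) W (θ0, s0) z1, abs_mul, ← he, hee, one_mul] at hphz
      exact hphz
    set zs : ℂ := z0 + (σ - s0) • (I * dir θ0) with hzs
    have hzs0 : ph (θ0, σ) zs = 0 := by
      unfold ph at h0 ⊢
      simp only [] at h0 ⊢
      have h1 : conj (dir θ0) * zs = conj (dir θ0) * z0 + ((σ - s0 : ℝ) : ℂ) * I := by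
        rw [hzs, real_smul]
        have := conj_dir_mul θ0
        linear_combination ((σ - s0 : ℝ) : ℂ) * I * this
      rw [h1, Complex.add_im, Complex.im_ofReal_mul, I_im]
      linarith
    have hzsb : zs ∈ Metric.ball z0 ρ := by
      rw [Metric.mem_ball, dist_eq_norm, hzs, add_sub_cancel_left, norm_smul, norm_mul, nd,
        Complex.norm_I, Real.norm_eq_abs]
      simpa using hσs
    have hz'0 : ph (θ0, σ) (uf p W z1) = 0 := by
      unfold ph
      simp only []
      rw [hσ]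
      ring
    set T : ℝ := tt (θ0, σ) (uf p W z1) - tt (θ0, σ) zs with hT
    have hline : uf p W z1 = zs + T • dir θ0 := on_line hzs0 hz'0
    let Φ : ℝ → ℂ → ℂ := fun η z => uf p W z + (-T) • dir (θ0 + ε * η)
    have hcΦ : Continuous fun q : ℝ × ℂ => Φ q.1 q.2 := by
      have h1 := cont_uf (p := p) W
      have h2 := cont_dir
      show Continuous fun q : ℝ × ℂ => uf p W q.2 + (-T) • dir (θ0 + ε * q.1)
      fun_prop
    have hcl : Continuous fun q : ℝ × ℂ => ln (uf p W q.2) (θ0 + ε * q.1) := by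
      have h1 := cont_uf (p := p) W
      have h2 := cont_dir
      have h3 := continuous_conj
      unfold ln
      fun_prop
    have hΦ0 : Φ 0 z1 ∈ Metric.ball z0 ρ := by
      have : Φ 0 z1 = zs := by
        show uf p W z1 + (-T) • dir (θ0 + ε * 0) = zs
        rw [mul_zero, add_zero, hline]
        module
      rw [this]
      exact hzsb
    have hl0 : RW p W (ln (uf p W z1) (θ0 + ε * 0)) := by
      rw [mul_zero, add_zero]
      exact hRW σ hσs
    have hev : ∀ᶠ q : ℝ × ℂ in 𝓝 (0, z1), Φ q.1 q.2 ∈ Metric.ball z0 ρ ∧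
        RW p W (ln (uf p W q.2) (θ0 + ε * q.1)) ∧ q.2 ∈ reg p := by
      refine Filter.Eventually.and ?_ (Filter.Eventually.and ?_ ?_)
      · exact hcΦ.continuousAt.eventually (Metric.isOpen_ball.mem_nhds hΦ0)
      · exact hcl.continuousAt.eventually ((isOpen_RW (p := p) W).mem_nhds hl0)
      · exact continuous_snd.continuousAt.eventually ((reg_op hp).mem_nhds hz1)
    obtain ⟨r, hr, hball⟩ := Metric.eventually_nhds_iff.1 hev
    have hgood : ∀ η : ℝ, |η| < r → ∀ z ∈ Metric.ball z1 r, Φ η z ∈ Metric.ball z0 ρ ∧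
        RW p W (ln (uf p W z) (θ0 + ε * η)) ∧ z ∈ reg p := by
      intro η hη z hz
      refine hball (y := (η, z)) ?_
      rw [Prod.dist_eq, max_lt_iff]
      refine ⟨?_, hz⟩
      simpa using hη
    have hval : ∀ η : ℝ, |η| < r → ∀ z ∈ Metric.ball z1 r,
        f (z, e * θ0 + c + e * ε * η) = f (Φ η z, θ0 + ε * η) := by
      intro η hη z hz
      obtain ⟨g1, g2, g3⟩ := hgood η hη z hz
      set x := ln (uf p W z) (θ0 + ε * η) with hx
      have hx1 : x.1 = θ0 + ε * η := rfl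
      have k1 : ph x (uf p W z) = 0 := ph_ln_self _ _
      have k2 : ph x (Φ η z) = 0 := by
        have := ph_shift x (uf p W z) (-T)
        rw [k1] at this
        exact this
      have k3 : ph (fw p W x) z = 0 := by
        rw [ph_fw (Pool.Agent.W347.BB.rf_rf p) W x z, k1, mul_zero]
      have k4 := Fv_fw hp hE (hz0 g1) k2 g2 g3 k3
      rw [Fv_eq hp hE g3 k3, sg_one, one_mul, hc x, hx1] at k4
      rw [← k4]
      congr 2
      ring
    refine ⟨r, hr, ?_⟩
    -- the comparison of the averages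
    have hcmp : ∀ δ : ℝ, 0 < δ → δ < r → ∫⁻ z in Metric.ball z1 r, ENNReal.ofReal (1 / δ) *
        ∫⁻ η in Ioc 0 δ, ‖f (z, e * θ0 + c + e * ε * η) - a‖ₑ ≤
        ∫⁻ z in Metric.ball z0 ρ, ENNReal.ofReal (1 / δ) *
        ∫⁻ η in Ioc 0 δ, ‖f (z, θ0 + ε * η) - a‖ₑ := by
      intro δ hδ hδr
      rw [lintegral_const_mul' _ _ ENNReal.ofReal_ne_top,
        lintegral_const_mul' _ _ ENNReal.ofReal_ne_top]
      refine mul_le_mul_right ?_ _
      rw [lintegral_lintegral_swap (f := fun z η => ‖f (z, e * θ0 + c + e * ε * η) - a‖ₑ)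
          (hFm (e * θ0 + c) (e * ε)).aemeasurable,
        lintegral_lintegral_swap (f := fun z η => ‖f (z, θ0 + ε * η) - a‖ₑ)
          (hFm θ0 ε).aemeasurable]
      refine setLIntegral_mono' measurableSet_Ioc fun η hη => ?_
      have hη' : |η| < r := by
        rw [abs_of_pos hη.1]
        exact hη.2.trans_lt hδr
      have hmp : MeasurePreserving (Φ η) (volume : Measure ℂ) (volume : Measure ℂ) :=
        (measurePreserving_add_right (volume : Measure ℂ) ((-T) • dir (θ0 + ε * η))).comp (uf_mp W)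
      have hsub : Metric.ball z1 r ⊆ Φ η ⁻¹' Metric.ball z0 ρ := fun z hz =>
        (hgood η hη' z hz).1
      calc ∫⁻ z in Metric.ball z1 r, ‖f (z, e * θ0 + c + e * ε * η) - a‖ₑ
          = ∫⁻ z in Metric.ball z1 r, ‖f (Φ η z, θ0 + ε * η) - a‖ₑ := by
            refine setLIntegral_congr_fun measurableSet_ball fun z hz => ?_
            rw [hval η hη' z hz]
        _ ≤ ∫⁻ z in Φ η ⁻¹' Metric.ball z0 ρ, ‖f (Φ η z, θ0 + ε * η) - a‖ₑ :=
            lintegral_mono_set hsub
        _ = ∫⁻ z in Metric.ball z0 ρ, ‖f (z, θ0 + ε * η) - a‖ₑ := by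
            refine hmp.setLIntegral_comp_preimage measurableSet_ball
              (f := fun z => ‖f (z, θ0 + ε * η) - a‖ₑ) ?_
            refine Measurable.enorm ((hf.comp (measurable_id.prodMk measurable_const)).sub
              measurable_const)
    -- Fatou
    have hfat : ∀ᵐ z ∂(volume.restrict (Metric.ball z1 r)), liminf (fun m : ℕ =>
        ENNReal.ofReal (1 / (1 / ((m : ℝ) + 1))) * ∫⁻ η in Ioc 0 (1 / ((m : ℝ) + 1)),
          ‖f (z, e * θ0 + c + e * ε * η) - a‖ₑ) atTop = 0 := by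
      have hms : ∀ m : ℕ, Measurable fun z : ℂ =>
          ENNReal.ofReal (1 / (1 / ((m : ℝ) + 1))) * ∫⁻ η in Ioc 0 (1 / ((m : ℝ) + 1)),
          ‖f (z, e * θ0 + c + e * ε * η) - a‖ₑ := fun m =>
        Measurable.const_mul (hFm (e * θ0 + c) (e * ε)).lintegral_prod_right' _
      refine (lintegral_eq_zero_iff (Measurable.liminf hms)).1 ?_
      refine le_antisymm ?_ zero_le
      refine (lintegral_liminf_le hms).trans ?_
      have h1 : liminf (fun m : ℕ => ∫⁻ z in Metric.ball z1 r,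
          ENNReal.ofReal (1 / (1 / ((m : ℝ) + 1))) * ∫⁻ η in Ioc 0 (1 / ((m : ℝ) + 1)),
          ‖f (z, e * θ0 + c + e * ε * η) - a‖ₑ) atTop ≤ liminf (fun m : ℕ =>
          ∫⁻ z in Metric.ball z0 ρ, ENNReal.ofReal (1 / (1 / ((m : ℝ) + 1))) *
          ∫⁻ η in Ioc 0 (1 / ((m : ℝ) + 1)), ‖f (z, θ0 + ε * η) - a‖ₑ) atTop := by
        refine liminf_le_liminf ?_
        have h2 : ∀ᶠ m : ℕ in atTop, 1 / ((m : ℝ) + 1) < r :=
          tendsto_one_div_add_atTop_nhds_zero_nat.eventually (gt_mem_nhds hr)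
        filter_upwards [h2] with m hm
        exact hcmp _ (by positivity) hm
      refine h1.trans ?_
      rw [hA.liminf_eq]
    rw [ae_restrict_iff' measurableSet_ball] at hfat
    filter_upwards [hfat, hav G' (e * ε) hG'] with z hz1' hz2 hzb
    have hzr : z ∈ reg p := (hgood 0 (by simpa using hr) z hzb).2.2
    have h3 := (hz2 hzr (e * θ0 + c)).comp seq_lim
    have h4 := hz1' hzb
    rw [hθ1]
    by_contra hne
    have h5 : (0 : ℝ≥0∞) < ‖G' z (e * θ0 + c) - a‖ₑ := by
      rw [enorm_pos, sub_ne_zero]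
      exact hne
    have h6 : (0 : ℝ≥0∞) < ‖G' z (e * θ0 + c) - a‖ₑ / 2 := ENNReal.half_pos h5.ne'
    have h7 : ∀ᶠ m : ℕ in atTop, ‖G' z (e * θ0 + c) - a‖ₑ / 2 ≤
        ENNReal.ofReal (1 / (1 / ((m : ℝ) + 1))) * ∫⁻ η in Ioc 0 (1 / ((m : ℝ) + 1)),
          ‖f (z, e * θ0 + c + e * ε * η) - a‖ₑ := by
      filter_upwards [h3.eventually (gt_mem_nhds h6)] with m hm
      have hm0 : (0 : ℝ) < 1 / ((m : ℝ) + 1) := by positivity
      have h8 : ‖G' z (e * θ0 + c) - a‖ₑ ≤
          ENNReal.ofReal (1 / (1 / ((m : ℝ) + 1))) * (∫⁻ η in Ioc 0 (1 / ((m : ℝ) + 1)),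
            ‖f (z, e * θ0 + c + e * ε * η) - G' z (e * θ0 + c)‖ₑ) +
          ENNReal.ofReal (1 / (1 / ((m : ℝ) + 1))) * ∫⁻ η in Ioc 0 (1 / ((m : ℝ) + 1)),
            ‖f (z, e * θ0 + c + e * ε * η) - a‖ₑ := by
        rw [← mul_add, ← lintegral_add_left']
        · calc ‖G' z (e * θ0 + c) - a‖ₑ
              = ENNReal.ofReal (1 / (1 / ((m : ℝ) + 1))) * ∫⁻ η in Ioc 0 (1 / ((m : ℝ) + 1)),
                ‖G' z (e * θ0 + c) - a‖ₑ := by
                rw [lintegral_const, Measure.restrict_apply MeasurableSet.univ, univ_inter,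
                  Real.volume_Ioc, sub_zero, ← mul_assoc, mul_comm (ENNReal.ofReal _), mul_assoc,
                  ← ENNReal.ofReal_mul (by positivity), one_div_mul_cancel hm0.ne',
                  ENNReal.ofReal_one, mul_one]
            _ ≤ _ := by
                gcongr with η
                calc ‖G' z (e * θ0 + c) - a‖ₑ
                    = ‖(f (z, e * θ0 + c + e * ε * η) - a) -
                      (f (z, e * θ0 + c + e * ε * η) - G' z (e * θ0 + c))‖ₑ := by
                      congr 1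
                      ring
                  _ ≤ ‖f (z, e * θ0 + c + e * ε * η) - a‖ₑ +
                      ‖f (z, e * θ0 + c + e * ε * η) - G' z (e * θ0 + c)‖ₑ := enorm_sub_le
                  _ = _ := add_comm _ _
        · refine (Measurable.enorm ((hf.comp (measurable_const.prodMk ?_)).sub
            measurable_const)).aemeasurable
          exact measurable_const.add (measurable_const.mul measurable_id)
      by_contra hcon
      push Not at hcon
      have h9 := ENNReal.add_lt_add hm hcon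
      rw [ENNReal.add_halves] at h9
      exact absurd h8 (not_le.2 h9)
    have h8 := le_liminf_of_le (by isBoundedDefault) h7
    rw [h4] at h8
    exact absurd h6 (not_lt.2 h8)
  -- from local to global
  have hN : volume {z : ℂ | z ∈ reg p ∧ |ph (fw p W (θ0, s0)) z| < ρ ∧
      G' z (fw p W (θ0, s0)).1 ≠ a} = 0 := by
    refine measure_null_of_locally_null _ fun z hz => ?_
    obtain ⟨r, hr, h⟩ := key z hz.1 hz.2.1
    refine ⟨_, inter_mem_nhdsWithin _ (Metric.ball_mem_nhds z hr), ?_⟩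
    refine measure_mono_null ?_ (ae_iff.1 h)
    rintro y ⟨hy1, hy2⟩
    exact fun hy3 => hy1.2.2 (hy3 hy2)
  rw [ae_iff]
  refine measure_mono_null ?_ hN
  intro z hz
  simp only [mem_ofPred_eq] at hz ⊢
  push Not at hz
  exact hz

theorem pers (hp : IsConvexPolygon p) (hf : Measurable f) (hb : ∀ x, ‖f x‖ ≤ 1)
    (hE : IsEigenfunction p 0 (fun _ => 1) f) {ε : ℝ} (_hε : ε = 1 ∨ ε = -1) {G G' : ℂ → ℝ → ℂ}
    (hG : Sided p f ε G) {W : List (Fin (n + 3))} (hG' : Sided p f ((-1) ^ W.length * ε) G')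
    {θ0 s0 ρ : ℝ} {z0 a : ℂ} (hρ : 0 < ρ) (hz0 : Metric.ball z0 ρ ⊆ reg p)
    (h0 : ph (θ0, s0) z0 = 0) (hRW : ∀ σ, |σ - s0| < ρ → RW p W (θ0, σ))
    (ha : ∀ᵐ z : ℂ, z ∈ Metric.ball z0 ρ → G z θ0 = a) :
    ∀ᵐ z : ℂ, z ∈ reg p → |ph (fw p W (θ0, s0)) z| < ρ / 4 → G' z (fw p W (θ0, s0)).1 = a := by
  filter_upwards [pers' hp hf hb hE hG hG' hρ hz0 h0 hRW ha] with z hz h1 h2
  exact hz h1 (h2.trans (by linarith))

end Pool.Agent.Zk86.RF
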