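import Pool.Agent.Zk55.RF.Word

set_option autoImplicit false

/-!
Returns of a strip of lines (module O).
-/

namespace Pool.Agent.Zk86.RF

open Complex Set MeasureTheory Filter Topology Pool.Agent.W780.PG Pool.Agent.W780.BB
  Pool.Agent.TH578.BE Pool.Agent.K3h17.BK Pool.Agent.Zk55.CF Pool.Agent.Zk55.RF

open scoped Real ComplexConjugate ENNReal

variable {n : ℕ} {p : Fin (n + 3) → ℂ}

theorem cont_ph (x : ℝ × ℝ) : Continuous (ph x) := by
  unfold ph
  have := continuous_conj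
  fun_prop

/-- the part of the polygon near a line which meets it -/
theorem strip_vol (hp : IsConvexPolygon p) {ρ : ℝ} (hρ : 0 < ρ) : ∃ c : ℝ≥0∞, 0 < c ∧
    ∀ x : ℝ × ℝ, (∃ y ∈ reg p, ph x y = 0) → c ≤ volume (reg p ∩ {z | |ph x z| < ρ}) := by
  obtain ⟨R, hR⟩ := (reg_bounded hp).exists_norm_le
  have hne : (reg p).Nonempty ∨ ¬ (reg p).Nonempty := em _
  rcases hne with hne | hne
  swap
  · exact ⟨1, one_pos, fun x ⟨y, hy, _⟩ => absurd ⟨y, hy⟩ hne⟩
  have hR0 : 0 ≤ R := by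
    obtain ⟨y, hy⟩ := hne
    exact (norm_nonneg y).trans (hR y hy)
  set lam : ℝ := min 1 (ρ / (2 * R + 1)) with hlam
  have hl0 : 0 < lam := lt_min one_pos (by positivity)
  have hl1 : lam ≤ 1 := min_le_left _ _
  have hl2 : lam * (2 * R) < ρ := by
    have h1 : lam ≤ ρ / (2 * R + 1) := min_le_right _ _
    have h2 : lam * (2 * R) ≤ ρ / (2 * R + 1) * (2 * R) :=
      mul_le_mul_of_nonneg_right h1 (by positivity)
    have h3 : ρ / (2 * R + 1) * (2 * R) < ρ := by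
      rw [div_mul_eq_mul_div, div_lt_iff₀ (by positivity)]
      nlinarith
    linarith
  have hv : 0 < volume (reg p) := (reg_op hp).measure_pos volume hne
  refine ⟨ENNReal.ofReal |lam ^ Module.finrank ℝ ℂ| * volume (reg p), ?_, ?_⟩
  · refine ENNReal.mul_pos ?_ hv.ne'
    rw [ne_eq, ENNReal.ofReal_eq_zero, not_le, abs_pos]
    positivity
  · rintro x ⟨m, hm, hm0⟩
    rw [← Measure.addHaar_image_homothety volume m lam (reg p)]
    refine measure_mono ?_
    rintro _ ⟨y, hy, rfl⟩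
    have e : AffineMap.homothety m lam y = (1 - lam) • m + lam • y := by
      rw [AffineMap.homothety_apply]
      simp only [vsub_eq_sub, vadd_eq_add, real_smul]
      push_cast
      ring
    rw [e]
    refine ⟨reg_cv hp hm hy (by linarith) hl0.le (by ring), ?_⟩
    simp only [mem_ofPred_eq]
    rw [ph_comb, hm0, mul_zero, zero_add]
    have h1 : ph x y = (conj (dir x.1) * (y - m)).im := by
      unfold ph at hm0 ⊢
      rw [mul_sub, Complex.sub_im]
      linarith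
    rw [h1, abs_mul, abs_of_pos hl0]
    refine lt_of_le_of_lt (mul_le_mul_of_nonneg_left ?_ hl0.le) hl2
    calc |(conj (dir x.1) * (y - m)).im| ≤ ‖conj (dir x.1) * (y - m)‖ := Complex.abs_im_le_norm _
      _ = ‖y - m‖ := by rw [norm_mul, RCLike.norm_conj, nd, one_mul]
      _ ≤ ‖y‖ + ‖m‖ := norm_sub_le _ _
      _ ≤ 2 * R := by linarith [hR y hy, hR m hm]

theorem returns (hp : IsConvexPolygon p) {θ0 s0 ρ : ℝ} (hρ : 0 < ρ)
    {W : ℕ → List (Fin (n + 3))} (hl : ∀ l, (W l).length = l)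
    (hRW : ∀ l, ∀ σ, |σ - s0| < ρ → RW p (W l) (θ0, σ))
    (hmeet : ∃ y ∈ reg p, ph (θ0, s0) y = 0) {J : ℂ → Set ℝ}
    (hJ : ∀ᵐ z : ℂ, z ∈ reg p → (J z ∩ Ico 0 (2 * π)).Finite ∧ ∀ θ, θ + 2 * π ∈ J z ↔ θ ∈ J z)
    (hin : ∀ l, ∀ᵐ z : ℂ, z ∈ reg p → |ph (fw p (W l) (θ0, s0)) z| < ρ →
      (fw p (W l) (θ0, s0)).1 ∈ J z) :
    ∃ l m : ℕ, l < m ∧ Even (m - l) ∧ ∃ σ σ' : ℝ, |σ - s0| < ρ ∧ |σ' - s0| < ρ ∧
      ∃ k : ℤ, fw p (W l) (θ0, σ) =
        ((fw p (W m) (θ0, σ')).1 + 2 * π * k, (fw p (W m) (θ0, σ')).2) := by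
  classical
  -- the lines meet the polygon
  have hm : ∀ l, ∃ y ∈ reg p, ph (fw p (W l) (θ0, s0)) y = 0 := by
    intro l
    by_cases h : W l = []
    · rw [h]
      exact hmeet
    · exact meets hp h (hRW l s0 (by simpa using hρ))
  obtain ⟨c, hc, hvol⟩ := strip_vol hp hρ
  set R : ℕ → Set ℂ := fun l => reg p ∩ {z | |ph (fw p (W l) (θ0, s0)) z| < ρ} with hR
  have hRo : ∀ l, IsOpen (R l) := fun l =>
    (reg_op hp).inter (isOpen_lt ((cont_ph _).abs) continuous_const)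
  have hRc : ∀ l, c ≤ volume (R l) := fun l => hvol _ (hm l)
  set E : ℕ → Set ℂ := fun L => ⋃ l ∈ Ici L, R l with hE
  have hEo : ∀ L, IsOpen (E L) := fun L => isOpen_biUnion fun l _ => hRo l
  have hEanti : Antitone E := fun L L' h =>
    biUnion_subset_biUnion_left (Ici_subset_Ici.2 h)
  have hfin : volume (E 0) ≠ ⊤ := by
    have h1 : E 0 ⊆ reg p := iUnion₂_subset fun l _ => inter_subset_left
    exact ((measure_mono h1).trans_lt (reg_bounded hp).measure_lt_top).ne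
  have hlim := tendsto_measure_iInter_atTop (μ := volume) (s := E)
    (fun L => (hEo L).measurableSet.nullMeasurableSet) hEanti ⟨0, hfin⟩
  have hge : c ≤ volume (⋂ L, E L) := by
    refine ge_of_tendsto' hlim fun L => ?_
    refine (hRc L).trans (measure_mono ?_)
    exact subset_biUnion_of_mem (mem_Ici.2 le_rfl)
  -- a good point
  have hgood : ∀ᵐ z : ℂ, (z ∈ reg p → (J z ∩ Ico 0 (2 * π)).Finite ∧
      ∀ θ, θ + 2 * π ∈ J z ↔ θ ∈ J z) ∧ ∀ l, z ∈ reg p → |ph (fw p (W l) (θ0, s0)) z| < ρ →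
      (fw p (W l) (θ0, s0)).1 ∈ J z := by
    filter_upwards [hJ, ae_all_iff.2 hin] with z h1 h2
    exact ⟨h1, h2⟩
  obtain ⟨z, hz, hz1, hz2⟩ : ∃ z ∈ ⋂ L, E L, (z ∈ reg p → (J z ∩ Ico 0 (2 * π)).Finite ∧
      ∀ θ, θ + 2 * π ∈ J z ↔ θ ∈ J z) ∧ ∀ l, z ∈ reg p → |ph (fw p (W l) (θ0, s0)) z| < ρ →
      (fw p (W l) (θ0, s0)).1 ∈ J z := by
    by_contra hcon
    push Not at hcon
    have h1 : volume (⋂ L, E L) = 0 := by
      refine measure_mono_null ?_ (ae_iff.1 hgood)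
      intro z hz hcon2
      obtain ⟨l, h2, h3, h4⟩ := hcon z hz hcon2.1
      exact h4 (hcon2.2 l h2 h3)
    rw [h1] at hge
    exact absurd hge (not_le.2 hc)
  have hinf : {l | z ∈ R l}.Infinite := by
    rw [Set.infinite_iff_exists_gt]
    intro a
    obtain ⟨l, hla, hlz⟩ := mem_iUnion₂.1 (mem_iInter.1 hz (a + 1))
    exact ⟨l, hlz, lt_of_lt_of_le (Nat.lt_succ_self a) hla⟩
  obtain ⟨l0, hl0⟩ := hinf.nonempty
  have hzr : z ∈ reg p := hl0.1
  obtain ⟨hJf, hJp⟩ := hz1 hzr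
  have hper : Function.Periodic (fun θ => θ ∈ J z) (2 * π) := fun θ => propext (hJp θ)
  set x : ℕ → ℝ := fun l => (fw p (W l) (θ0, s0)).1 with hx
  have hxJ : ∀ l ∈ {l | z ∈ R l}, x l ∈ J z := fun l hl' => hz2 l hzr hl'.2
  obtain ⟨l, hlR, m, hmR, hlm, hf⟩ := hinf.exists_ne_map_eq_of_mapsTo
    (f := fun l => (toIcoMod Real.two_pi_pos 0 (x l), l % 2))
    (t := (J z ∩ Ico 0 (2 * π)) ×ˢ (Iio 2 : Set ℕ)) (by
      intro l hl'
      refine ⟨⟨?_, ?_⟩, ?_⟩
      · have h1 := hper.sub_zsmul_eq (x := x l) (toIcoDiv Real.two_pi_pos 0 (x l))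
        have h2 : x l ∈ J z := hxJ l hl'
        show toIcoMod Real.two_pi_pos 0 (x l) ∈ J z
        unfold toIcoMod
        simp only [eq_iff_iff] at h1
        exact h1.2 h2
      · have := toIcoMod_mem_Ico Real.two_pi_pos 0 (x l)
        simpa using this
      · exact Nat.mod_lt _ (by norm_num)) (hJf.prod (Set.finite_Iio 2))
  -- the conclusion for two indices
  have key : ∀ l m : ℕ, l < m → z ∈ R l → z ∈ R m → toIcoMod Real.two_pi_pos 0 (x l) =
      toIcoMod Real.two_pi_pos 0 (x m) → l % 2 = m % 2 → ∃ l m : ℕ, l < m ∧ Even (m - l) ∧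
      ∃ σ σ' : ℝ, |σ - s0| < ρ ∧ |σ' - s0| < ρ ∧
      ∃ k : ℤ, fw p (W l) (θ0, σ) =
        ((fw p (W m) (θ0, σ')).1 + 2 * π * k, (fw p (W m) (θ0, σ')).2) := by
    intro l m hlt hlR hmR h1 h2
    have hline : ∀ l, z ∈ R l → ∃ σ, |σ - s0| < ρ ∧
        fw p (W l) (θ0, σ) = (x l, (conj (dir (x l)) * z).im) := by
      intro l hlR
      have hph : |ph (fw p (W l) (θ0, s0)) z| < ρ := hlR.2
      refine ⟨s0 + (-1) ^ l * ph (fw p (W l) (θ0, s0)) z, ?_, ?_⟩
      · rw [add_sub_cancel_left, abs_mul, abs_pow, abs_neg, abs_one, one_pow, one_mul]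
        exact hph
      · obtain ⟨h3, h4⟩ := fw_snd_aff (p := p) (W l) θ0
          (s0 + (-1) ^ l * ph (fw p (W l) (θ0, s0)) z) s0
        refine Prod.ext h4 ?_
        rw [hl, add_sub_cancel_left, ← mul_assoc, ← mul_pow] at h3
        norm_num at h3
        show (fw p (W l) (θ0, s0 + (-1) ^ l * ph (fw p (W l) (θ0, s0)) z)).2 =
          (conj (dir (fw p (W l) (θ0, s0)).1) * z).im
        have h5 : ph (fw p (W l) (θ0, s0)) z =
          (conj (dir (fw p (W l) (θ0, s0)).1) * z).im - (fw p (W l) (θ0, s0)).2 := rfl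
        linarith
    obtain ⟨σ, hσ, e1⟩ := hline l hlR
    obtain ⟨σ', hσ', e2⟩ := hline m hmR
    refine ⟨l, m, hlt, ?_, σ, σ', hσ, hσ',
      toIcoDiv Real.two_pi_pos 0 (x l) - toIcoDiv Real.two_pi_pos 0 (x m), ?_⟩
    · rw [Nat.even_sub hlt.le, Nat.even_iff, Nat.even_iff, h2]
    · unfold toIcoMod at h1
      have h3 : x l = x m + 2 * π * ((toIcoDiv Real.two_pi_pos 0 (x l) -
          toIcoDiv Real.two_pi_pos 0 (x m) : ℤ) : ℝ) := by
        simp only [zsmul_eq_mul] at h1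
        push_cast
        linarith
      rw [e1, e2]
      refine Prod.ext h3 ?_
      simp only
      rw [h3, dir_int]
  obtain ⟨h1, h2⟩ := Prod.mk.inj hf
  rcases lt_or_gt_of_ne hlm with h | h
  · exact key l m h hlR hmR h1 h2
  · exact key m l h hmR hlR h1.symm h2.symm

end Pool.Agent.Zk86.RF
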