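import Pool.Agent.Zk55.RF.Base2

set_option autoImplicit false

/-!
The words of the lines through a segment without visible vertices (module M).
-/

namespace Pool.Agent.Zk86.RF

open Complex Set MeasureTheory Filter Topology Pool.Agent.W780.PG Pool.Agent.W780.BB
  Pool.Agent.TH578.BE Pool.Agent.K3h17.BK Pool.Agent.Zk55.CF Pool.Agent.Zk55.RF

open scoped Real ComplexConjugate

variable {n : ℕ} {p : Fin (n + 3) → ℂ}

theorem cont_ln' (θ : ℝ) : Continuous fun z : ℂ => ln z θ := by
  unfold ln
  fun_prop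

theorem free_words (hp : IsConvexPolygon p) {B C : ℂ} (hB : B ∈ reg p) (hC : C ∈ reg p) {θ : ℝ}
    (hfree : ∀ y ∈ segment ℝ B C, ∀ w k, ¬ VisAt p y w k θ) (l : ℕ) :
    ∃ W : List (Fin (n + 3)), W.length = l ∧ ∀ y ∈ segment ℝ B C, RW p W (ln y θ) := by
  have hseg : segment ℝ B C ⊆ reg p := (reg_cv hp).segment_subset hB hC
  induction l with
  | zero => exact ⟨[], rfl, fun _ _ => trivial⟩
  | succ k ih =>
    obtain ⟨w, hl, hw⟩ := ih
    have hex : ∀ y ∈ segment ℝ B C, ∃ i, RW p (w ++ [i]) (ln y θ) := by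
      intro y hy
      rcases vis_of_exit hp (hseg hy) (hw y hy) with h | ⟨j, h⟩
      · exact h
      · exact absurd h (hfree y hy w j)
    have hmid : B ∈ segment ℝ B C := left_mem_segment ℝ B C
    obtain ⟨i0, hi0⟩ := hex _ hmid
    have hopen : ∀ i, IsOpen {y : ℂ | RW p (w ++ [i]) (ln y θ)} := fun i =>
      (isOpen_RW (w ++ [i])).preimage (cont_ln' θ)
    have hpre : IsPreconnected (segment ℝ B C) := (convex_segment B C).isPreconnected
    have hdis : ∀ y i i', RW p (w ++ [i]) (ln y θ) → RW p (w ++ [i']) (ln y θ) → i = i' := by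
      intro y i i' h h'
      have := RW_uniq hp _ _ _ (by simp) h h'
      simpa using this
    have hsub := (isPreconnected_iff_subset_of_disjoint.1 hpre)
      {y : ℂ | RW p (w ++ [i0]) (ln y θ)} (⋃ i ∈ {i | i ≠ i0}, {y : ℂ | RW p (w ++ [i]) (ln y θ)})
      (hopen i0) (isOpen_biUnion fun i _ => hopen i)
      (by
        intro y hy
        obtain ⟨i, hi⟩ := hex y hy
        by_cases h : i = i0
        · left; rw [← h]; exact hi
        · right; exact mem_biUnion (show i ∈ {i | i ≠ i0} from h) hi)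
      (by
        rw [Set.eq_empty_iff_forall_notMem]
        rintro y ⟨-, h1, h2⟩
        simp only [mem_iUnion] at h2
        obtain ⟨i, hi, h3⟩ := h2
        exact hi (hdis y _ _ h3 h1))
    rcases hsub with h | h
    · exact ⟨w ++ [i0], by simp [hl], fun y hy => h hy⟩
    · exfalso
      have h1 := h hmid
      simp only [mem_iUnion] at h1
      obtain ⟨i, hi, h3⟩ := h1
      exact hi (hdis _ _ _ h3 hi0)

end Pool.Agent.Zk86.RF
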