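import Pool.Agent.Zk55.RF.Base2

set_option autoImplicit false

/-!
Jumps of a fibre: finiteness, and the case without jumps (module R).
-/

namespace Pool.Agent.Zk86.RF

open Complex Set MeasureTheory Filter Topology Pool.Agent.W780.PG Pool.Agent.W780.BB
  Pool.Agent.TH578.BE Pool.Agent.K3h17.BK Pool.Agent.Zk55.CF Pool.Agent.Zk55.RF

open scoped Real ComplexConjugate

variable {n : ℕ} {p : Fin (n + 3) → ℂ}

theorem jumps_finite {c : Fin (n + 3) → ℂ} {P M : ℂ → ℝ → ℂ} {z : ℂ} (h : Typ p c P M z) :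
    ({θ : ℝ | P z θ ≠ M z θ} ∩ Ico 0 (2 * π)).Finite := by
  by_contra hcon
  have hinf : ({θ : ℝ | P z θ ≠ M z θ} ∩ Ico 0 (2 * π)).Infinite := hcon
  obtain ⟨x, -, hx⟩ := hinf.exists_accPt_of_subset_isCompact
    (isCompact_Icc : IsCompact (Icc (0 : ℝ) (2 * π))) (fun y hy => Ico_subset_Icc_self hy.2)
  rw [accPt_iff_frequently] at hx
  apply hx
  obtain ⟨δ, hδ, h1⟩ := h.rightP x
  obtain ⟨δ', hδ', h2⟩ := h.leftM x
  filter_upwards [Ioo_mem_nhds (show x - δ' < x by linarith) (show x < x + δ by linarith)]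
    with y hy hyc
  rcases lt_or_gt_of_ne hyc.1 with hlt | hgt
  · obtain ⟨e1, e2⟩ := h2 y ⟨hy.1, hlt⟩
    exact hyc.2.1 (e1.trans e2.symm)
  · obtain ⟨e1, e2⟩ := h1 y ⟨hgt, hy.2⟩
    exact hyc.2.1 (e1.trans e2.symm)

theorem all_equal (_hp : IsConvexPolygon p) {c : Fin (n + 3) → ℂ} {P M : ℂ → ℝ → ℂ} {z : ℂ}
    (hz : z ∈ reg p) (h : Typ p c P M z) (hno : ∀ θ, P z θ = M z θ) (i j : Fin (n + 3)) :
    c i = c j := by
  have hlc : IsLocallyConstant (P z) := by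
    rw [IsLocallyConstant.iff_eventually_eq]
    intro x
    obtain ⟨δ, hδ, h1⟩ := h.rightP x
    obtain ⟨δ', hδ', h2⟩ := h.leftM x
    filter_upwards [Ioo_mem_nhds (show x - δ' < x by linarith) (show x < x + δ by linarith)]
      with y hy
    rcases lt_trichotomy y x with hlt | heq | hgt
    · rw [(h2 y ⟨hy.1, hlt⟩).1, hno]
    · rw [heq]
    · exact (h1 y ⟨hgt, hy.2⟩).1
  have hc : ∀ k, P z (arg (p k - z)) = c k := fun k =>
    (h.vis k _ ⟨[], Or.inl (vis_self hz k)⟩).1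
  rw [← hc i, ← hc j]
  exact hlc.apply_eq_of_preconnectedSpace _ _

end Pool.Agent.Zk86.RF
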