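import Pool.Agent.Zk23.AKDefs3
import Pool.Agent.Zk9.AKP5

/-!
# Progressions in graphs over finite fields: the upper bound
-/

set_option autoImplicit false

namespace Pool.Agent.Zk86.AKM4

open Finset Pool.Agent.Zk23.AKAP Pool.Agent.Zk9.AKP5

section main

variable {q d m : ℕ} [hq : Fact q.Prime]

theorem half_ap (k : ℕ) (f : (Fin d → ZMod q) → (Fin m → ZMod q)) :
    ∃ A : Finset (ℤ × ℤ), (apSet q d m k (gr f)).ncard = (A.image Prod.snd).card ∧
      ((Finset.range k).sup fun j => (A.image fun p => p.1 + (j : ℤ) * p.2).card) ≤ k ^ (d + m) * q ^ d := by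
  classical
  have hq0 : (0 : ℤ) < q := by exact_mod_cast hq.1.pos
  have hfin : Finite (apSet q d m k (gr f)) := Set.toFinite _
  let _ : Fintype (apSet q d m k (gr f)) := Fintype.ofFinite _
  have hex : ∀ v : apSet q d m k (gr f), ∃ y : (Fin d → ZMod q) × (Fin m → ZMod q),
      ∀ j < k, y + (j : ZMod q) • (v : (Fin d → ZMod q) × (Fin m → ZMod q)) ∈ gr f := fun v => v.2
  choose y hy using hex
  obtain ⟨c, hc⟩ := enc (Fin d ⊕ Fin m) q
  obtain ⟨φ, hφ⟩ : ∃ φ : ((Fin d ⊕ Fin m) → ℤ) → ℤ, φ = fun X => ∑ i, X i * c i := ⟨_, rfl⟩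
  have hφ' : ∀ X, φ X = ∑ i, X i * c i := fun X => by rw [hφ]
  refine ⟨univ.image fun v : apSet q d m k (gr f) =>
    (φ (li (y v)), φ (li (v : (Fin d → ZMod q) × (Fin m → ZMod q)))), ?_, ?_⟩
  · rw [image_image, card_image_of_injective, card_univ, Set.ncard_eq_toFinset_card', Set.toFinset_card]
    intro v v' h
    have h1 : φ (li (v : (Fin d → ZMod q) × (Fin m → ZMod q))) =
        φ (li (v' : (Fin d → ZMod q) × (Fin m → ZMod q))) := h
    have h2 : ∑ i, (li (v : (Fin d → ZMod q) × (Fin m → ZMod q)) i -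
        li (v' : (Fin d → ZMod q) × (Fin m → ZMod q)) i) * c i = 0 := by
      simp only [hφ'] at h1
      simp only [sub_mul, sum_sub_distrib]
      linarith
    have h3 := hc _ (fun i => by
      have a1 := li_nonneg (v : (Fin d → ZMod q) × (Fin m → ZMod q)) i
      have a2 := li_nonneg (v' : (Fin d → ZMod q) × (Fin m → ZMod q)) i
      have b1 := li_lt (v : (Fin d → ZMod q) × (Fin m → ZMod q)) i
      have b2 := li_lt (v' : (Fin d → ZMod q) × (Fin m → ZMod q)) i
      rw [abs_lt]
      constructor <;> linarith) h2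
    apply Subtype.ext
    refine co_inj fun i => ?_
    have h5 : ((li (v : (Fin d → ZMod q) × (Fin m → ZMod q)) i : ℤ) : ZMod q) =
        ((li (v' : (Fin d → ZMod q) × (Fin m → ZMod q)) i : ℤ) : ZMod q) := by
      congr 1
      linarith [h3 i]
    rwa [li_cast, li_cast] at h5
  · refine Finset.sup_le fun j hj => ?_
    rw [mem_range] at hj
    rw [image_image]
    refine (card_key univ _
      (fun v => ((y v + (j : ZMod q) • (v : (Fin d → ZMod q) × (Fin m → ZMod q))).1,
        fun i => (li (y v) i + (j : ℤ) * li (v : (Fin d → ZMod q) × (Fin m → ZMod q)) i) / (q : ℤ)))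
      ((univ : Finset (Fin d → ZMod q)) ×ˢ Fintype.piFinset fun _ : Fin d ⊕ Fin m =>
        Finset.Ico (0 : ℤ) k)
      (fun v _ => ?_) fun v _ v' _ h => ?_).trans ?_
    · rw [mem_product]
      refine ⟨mem_univ _, ?_⟩
      rw [Fintype.mem_piFinset]
      intro i
      have a1 := li_nonneg (y v) i
      have a2 := li_nonneg (v : (Fin d → ZMod q) × (Fin m → ZMod q)) i
      have b1 := li_lt (y v) i
      have b2 := li_lt (v : (Fin d → ZMod q) × (Fin m → ZMod q)) i
      have hj0 : (0 : ℤ) ≤ j := Int.natCast_nonneg _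
      have hjk : (j : ℤ) + 1 ≤ k := by exact_mod_cast hj
      have n1 : (j : ℤ) * li (v : (Fin d → ZMod q) × (Fin m → ZMod q)) i ≤ j * q :=
        mul_le_mul_of_nonneg_left b2.le hj0
      have n2 : 0 ≤ (j : ℤ) * li (v : (Fin d → ZMod q) × (Fin m → ZMod q)) i := mul_nonneg hj0 a2
      have n3 : ((j : ℤ) + 1) * q ≤ k * q := mul_le_mul_of_nonneg_right hjk hq0.le
      rw [mem_Ico]
      constructor
      · exact Int.ediv_nonneg (by linarith) hq0.le
      · apply Int.ediv_lt_of_lt_mul hq0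
        linarith
    · have h1 := (Prod.ext_iff.1 h).1
      have h2 := (Prod.ext_iff.1 h).2
      simp only at h1 h2
      have h3 : y v + (j : ZMod q) • (v : (Fin d → ZMod q) × (Fin m → ZMod q)) =
          y v' + (j : ZMod q) • (v' : (Fin d → ZMod q) × (Fin m → ZMod q)) := by
        have a1 := hy v j hj
        have a2 := hy v' j hj
        unfold gr at a1 a2
        simp only [Set.mem_ofPred_eq] at a1 a2
        exact Prod.ext h1 (by rw [a1, a2, h1])
      have h4 : ∀ i, li (y v) i + (j : ℤ) * li (v : (Fin d → ZMod q) × (Fin m → ZMod q)) i =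
          li (y v') i + (j : ℤ) * li (v' : (Fin d → ZMod q) × (Fin m → ZMod q)) i := by
        intro i
        have c1 : ∀ u : apSet q d m k (gr f),
            ((li (y u) i + (j : ℤ) * li (u : (Fin d → ZMod q) × (Fin m → ZMod q)) i : ℤ) : ZMod q) =
              co (y u + (j : ZMod q) • (u : (Fin d → ZMod q) × (Fin m → ZMod q))) i := by
          intro u
          push_cast
          rw [li_cast, li_cast, co_add_smul]
        have c2 : ((li (y v) i + (j : ℤ) * li (v : (Fin d → ZMod q) × (Fin m → ZMod q)) i : ℤ) : ZMod q) =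
            ((li (y v') i + (j : ℤ) * li (v' : (Fin d → ZMod q) × (Fin m → ZMod q)) i : ℤ) : ZMod q) := by
          rw [c1, c1, h3]
        rw [ZMod.intCast_eq_intCast_iff] at c2
        have c3 := congrFun h2 i
        have c4 : (li (y v) i + (j : ℤ) * li (v : (Fin d → ZMod q) × (Fin m → ZMod q)) i) % (q : ℤ) =
            (li (y v') i + (j : ℤ) * li (v' : (Fin d → ZMod q) × (Fin m → ZMod q)) i) % (q : ℤ) := c2
        rw [← Int.emod_add_mul_ediv (li (y v) i + (j : ℤ) * li (v : (Fin d → ZMod q) × (Fin m → ZMod q)) i) q,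
          ← Int.emod_add_mul_ediv (li (y v') i + (j : ℤ) * li (v' : (Fin d → ZMod q) × (Fin m → ZMod q)) i) q,
          c3, c4]
      show φ (li (y v)) + (j : ℤ) * φ (li (v : (Fin d → ZMod q) × (Fin m → ZMod q))) =
        φ (li (y v')) + (j : ℤ) * φ (li (v' : (Fin d → ZMod q) × (Fin m → ZMod q)))
      have c5 : ∀ u : apSet q d m k (gr f),
          φ (li (y u)) + (j : ℤ) * φ (li (u : (Fin d → ZMod q) × (Fin m → ZMod q))) =
            ∑ i, (li (y u) i + (j : ℤ) * li (u : (Fin d → ZMod q) × (Fin m → ZMod q)) i) * c i := by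
        intro u
        simp only [hφ', mul_sum, ← sum_add_distrib]
        exact sum_congr rfl fun i _ => by ring
      rw [c5, c5]
      exact sum_congr rfl fun i _ => by rw [h4 i]
    · rw [card_product, card_univ, Fintype.card_fun, ZMod.card, Fintype.card_fin,
        Fintype.card_piFinset, prod_const, card_univ, Int.card_Ico, Fintype.card_sum,
        Fintype.card_fin, Fintype.card_fin, mul_comm]
      simp

end main

theorem upper_ap (k : ℕ) (κ : ℝ) (hκ : 0 ≤ κ) (h : APBound k κ) (d m : ℕ) :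
    ∃ C : ℝ, ∀ (q : ℕ) [Fact q.Prime], ∀ f : (Fin d → ZMod q) → (Fin m → ZMod q),
      ((apSet q d m k (gr f)).ncard : ℝ) ≤ C * (q : ℝ) ^ (κ * d) := by
  refine ⟨((k : ℝ) ^ (d + m)) ^ κ, fun q hq f => ?_⟩
  obtain ⟨A, hA1, hA2⟩ := half_ap (q := q) (d := d) (m := m) k f
  rw [hA1]
  refine (h A).trans ?_
  have h1 : (((Finset.range k).sup fun j => (A.image fun p => p.1 + (j : ℤ) * p.2).card : ℕ) : ℝ) ≤
      (k : ℝ) ^ (d + m) * (q : ℝ) ^ d := by exact_mod_cast hA2
  refine (Real.rpow_le_rpow (Nat.cast_nonneg _) h1 hκ).trans (le_of_eq ?_)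
  rw [Real.mul_rpow (by positivity) (by positivity)]
  congr 1
  rw [mul_comm κ, Real.rpow_mul (Nat.cast_nonneg _), Real.rpow_natCast]

end Pool.Agent.Zk86.AKM4
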